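import Mathlib
import Pool.Agent.H47.CP.Ins

/-!
A circular order of `1, …, n` in which each `a ≤ K` has two prescribed neighbours.
-/

namespace Pool.Agent.H47.CR

open Finset Pool.Agent.H47.CP

/-- prescribed values -/
def f0 (g : ℕ → ℕ) (i : ℕ) : ℕ :=
  if i % 3 = 0 then g (2 * (i / 3)) else if i % 3 = 1 then i / 3 + 1 else g (2 * (i / 3) + 1)

/-- `g` gives the `2 K` prescribed neighbours; `R` holds between large elements and between `a` and
its prescribed neighbours -/
theorem exists_init {R : ℕ → ℕ → Prop} (n K : ℕ) (g : ℕ → ℕ) (hK : 3 * K < n)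
    (hg1 : ∀ i < 2 * K, K < g i ∧ g i ≤ n) (hg2 : ∀ i < 2 * K, ∀ j < 2 * K, g i = g j → i = j)
    (hR : ∀ x y, K < x → K < y → R x y)
    (hRa : ∀ j < K, R (g (2 * j)) (j + 1) ∧ R (j + 1) (g (2 * j + 1))) :
    ∃ f, Cyc R n f := by
  have hn : 0 < n := by omega
  have hpos : ∀ i < 3 * K, 1 ≤ f0 g i ∧ f0 g i ≤ n := by
    intro i hi
    unfold f0
    split_ifs with h1 h2
    · have := hg1 (2 * (i / 3)) (by omega); omega
    · omega
    · have := hg1 (2 * (i / 3) + 1) (by omega); omega
  have hinj : ∀ i < 3 * K, ∀ j < 3 * K, f0 g i = f0 g j → i = j := by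
    intro i hi j hj
    have a1 := hg1 (2 * (i / 3)) (by omega)
    have a2 := hg1 (2 * (i / 3) + 1) (by omega)
    have a3 := hg1 (2 * (j / 3)) (by omega)
    have a4 := hg1 (2 * (j / 3) + 1) (by omega)
    unfold f0
    split_ifs with h1 h2 h3 h4 h5 h6 h7 h8
    · intro he; have := hg2 _ (by omega) _ (by omega) he; omega
    · intro he; omega
    · intro he; have := hg2 _ (by omega) _ (by omega) he; omega
    · intro he; omega
    · intro he; omega
    · intro he; omega
    · intro he; have := hg2 _ (by omega) _ (by omega) he; omega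
    · intro he; omega
    · intro he; have := hg2 _ (by omega) _ (by omega) he; omega
  obtain ⟨e, he⟩ := Finset.exists_equiv_extend_of_card_eq (α := Fin n) (β := ℕ) (t := Icc 1 n)
    (by rw [Fintype.card_fin, Nat.card_Icc]; omega)
    (s := univ.filter (fun i : Fin n => i.1 < 3 * K)) (f := fun i : Fin n => f0 g i.1)
    (by
      intro x hx
      obtain ⟨i, hi, rfl⟩ := mem_image.1 hx
      exact mem_Icc.2 (hpos i.1 (mem_filter.1 hi).2))
    (by
      intro i hi j hj h
      exact Fin.ext (hinj i.1 (mem_filter.1 (mem_coe.1 hi)).2 j.1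
        (mem_filter.1 (mem_coe.1 hj)).2 h))
  set f : ℕ → ℕ := fun i => (e ⟨i % n, Nat.mod_lt _ hn⟩ : ℕ) with hf
  have hval : ∀ i, i % n < 3 * K → f i = f0 g (i % n) := by
    intro i hi
    exact he ⟨i % n, Nat.mod_lt _ hn⟩ (mem_filter.2 ⟨mem_univ _, hi⟩)
  have hfinj : ∀ i j, i < n → j < n → f i = f j → i = j := by
    intro i j hi hj h
    have h1 : (⟨i % n, Nat.mod_lt _ hn⟩ : Fin n) = ⟨j % n, Nat.mod_lt _ hn⟩ :=
      e.injective (Subtype.ext h)
    have h2 : i % n = j % n := congrArg Fin.val h1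
    rwa [Nat.mod_eq_of_lt hi, Nat.mod_eq_of_lt hj] at h2
  have hfpos : ∀ i, 1 ≤ f i := fun i => (mem_Icc.1 (e ⟨i % n, Nat.mod_lt _ hn⟩).2).1
  have hfle : ∀ i, f i ≤ n := fun i => (mem_Icc.1 (e ⟨i % n, Nat.mod_lt _ hn⟩).2).2
  have hmod : ∀ i, f (i % n) = f i := by
    intro i
    show ((e ⟨i % n % n, _⟩ : _) : ℕ) = (e ⟨i % n, _⟩ : _)
    simp only [Nat.mod_mod]
  -- the place of a small element
  have hsmall : ∀ i, f i ≤ K → i % n = 3 * (f i - 1) + 1 := by
    intro i hi
    have h1 := hfpos i
    have h2 : 3 * (f i - 1) + 1 < 3 * K := by omega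
    have h3 : f (3 * (f i - 1) + 1) = f i := by
      rw [hval _ (by rw [Nat.mod_eq_of_lt (by omega)]; exact h2), Nat.mod_eq_of_lt (by omega)]
      unfold f0
      rw [if_neg (by omega), if_pos (by omega)]
      omega
    exact hfinj _ _ (Nat.mod_lt _ hn) (by omega) (by rw [hmod, h3])
  refine ⟨f, ?_, hfpos, hfle, hfinj, ?_⟩
  · intro i
    show ((e ⟨(i + n) % n, _⟩ : _) : ℕ) = (e ⟨i % n, _⟩ : _)
    simp only [Nat.add_mod_right]
  · intro i
    rcases Nat.lt_or_ge K (f i) with h1 | h1
    · rcases Nat.lt_or_ge K (f (i + 1)) with h2 | h2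
      · exact hR _ _ h1 h2
      · -- `f (i + 1)` is small
        have h3 := hsmall _ h2
        have h4 := hfpos (i + 1)
        have h5 : i % n = 3 * (f (i + 1) - 1) := by
          rcases Nat.lt_or_ge (i % n + 1) n with h | h
          · have : (i + 1) % n = i % n + 1 := by
              rw [← Nat.mod_add_mod, Nat.mod_eq_of_lt h]
            omega
          · have h6 := Nat.mod_lt i hn
            have h7 : i % n + 1 = n := by omega
            have : (i + 1) % n = 0 := by
              rw [← Nat.mod_add_mod, h7, Nat.mod_self]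
            omega
        have h6 : f i = g (2 * (f (i + 1) - 1)) := by
          rw [hval i (by omega), h5]
          unfold f0
          rw [if_pos (by omega)]
          congr 2
          omega
        have h7 := (hRa (f (i + 1) - 1) (by omega)).1
        rw [← h6, show f (i + 1) - 1 + 1 = f (i + 1) by omega] at h7
        exact h7
    · have h3 := hsmall _ h1
      have h4 := hfpos i
      have h5 : (i + 1) % n = 3 * (f i - 1) + 2 := by
        rw [← Nat.mod_add_mod, h3, Nat.mod_eq_of_lt (by omega)]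
      have h6 : f (i + 1) = g (2 * (f i - 1) + 1) := by
        rw [hval (i + 1) (by omega), h5]
        unfold f0
        rw [if_neg (by omega), if_neg (by omega)]
        congr 1
        omega
      have h7 := (hRa (f i - 1) (by omega)).2
      rw [← h6, show f i - 1 + 1 = f i by omega] at h7
      exact h7

/-- distinct representatives -/
theorem exists_sdr (K : ℕ) (P : ℕ → Finset ℕ) (h : ∀ j < K, 2 * K ≤ (P j).card) :
    ∃ g : ℕ → ℕ, (∀ i < 2 * K, g i ∈ P (i / 2)) ∧ ∀ i < 2 * K, ∀ j < 2 * K, g i = g j → i = j := by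
  classical
  have key : ∃ g : Fin (2 * K) → ℕ, Function.Injective g ∧ ∀ i, g i ∈ P (i.1 / 2) := by
    rw [← Finset.all_card_le_biUnion_card_iff_exists_injective]
    intro s
    rcases s.eq_empty_or_nonempty with rfl | ⟨x, hx⟩
    · simp
    · have h1 : s.card ≤ 2 * K := by
        have := card_le_univ s
        rwa [Fintype.card_fin] at this
      have h2 : (P (x.1 / 2)).card ≤ (s.biUnion (fun i => P (i.1 / 2))).card :=
        card_le_card (subset_biUnion_of_mem (fun i : Fin (2 * K) => P (i.1 / 2)) hx)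
      have h3 := h (x.1 / 2) (by have := x.2; omega)
      omega
  obtain ⟨g, hg1, hg2⟩ := key
  refine ⟨fun i => if h : i < 2 * K then g ⟨i, h⟩ else 0, ?_, ?_⟩
  · intro i hi
    simp only [hi, dif_pos]
    exact hg2 ⟨i, hi⟩
  · intro i hi j hj he
    simp only [hi, hj, dif_pos] at he
    exact congrArg Fin.val (hg1 he)

end Pool.Agent.H47.CR
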