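import Mathlib
import Pool.Agent.H55.Siegel.AP

/-!
Every `a ≤ (log n)^A` has many `b ≤ n` with `2ab + 1` prime (Siegel-Walfisz).
-/

namespace Pool.Agent.H47.CR

open Finset

lemma ev_pow (c : ℝ) (hc : 0 < c) (A : ℕ) : ∃ n0 : ℕ, ∀ n : ℕ, n0 ≤ n → c * Real.log n ^ A ≤ n := by
  have h1 := (Real.isLittleO_pow_log_id_atTop (n := A)).def (c := 1 / c) (by positivity)
  obtain ⟨x0, hx0⟩ := Filter.eventually_atTop.1 h1
  refine ⟨max 1 ⌈x0⌉₊, fun n hn => ?_⟩
  have h2 : x0 ≤ n := (Nat.le_ceil x0).trans (by exact_mod_cast (le_max_right _ _).trans hn)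
  have h3 := hx0 n h2
  rw [Real.norm_eq_abs, Real.norm_eq_abs] at h3
  have h4 : (1 : ℝ) ≤ n := by exact_mod_cast (le_max_left _ _).trans hn
  have h5 : 0 ≤ Real.log n := Real.log_nonneg h4
  rw [abs_of_nonneg (by positivity), id, abs_of_nonneg (by linarith)] at h3
  calc c * Real.log n ^ A ≤ c * (1 / c * n) := by gcongr
    _ = n := by field_simp

lemma ev_log (c : ℝ) : ∃ n0 : ℕ, ∀ n : ℕ, n0 ≤ n → c ≤ Real.log n := by
  have h1 : Filter.Tendsto (fun n : ℕ => Real.log n) Filter.atTop Filter.atTop :=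
    Real.tendsto_log_atTop.comp tendsto_natCast_atTop_atTop
  exact Filter.eventually_atTop.1 (h1.eventually_ge_atTop c)

/-- **many prime partners** -/
theorem partners (A : ℕ) : ∃ n0 : ℕ, ∀ n : ℕ, n0 ≤ n → ∀ K : ℕ, (K : ℝ) ≤ Real.log n ^ A →
    ∀ a : ℕ, 1 ≤ a → a ≤ K →
      2 * K ≤ ((Ioc K n).filter (fun b => (2 * a * b + 1).Prime)).card := by
  obtain ⟨C, hC⟩ := Pool.Agent.H55.Siegel.theta_AP (A + 1) (A + 1)
  obtain ⟨n1, h1⟩ := ev_log (max 2 (4 * |C|))
  obtain ⟨n2, h2⟩ := ev_pow 18 (by norm_num) (A + 1)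
  refine ⟨max (max n1 n2) 2, fun n hn K hK a ha haK => ?_⟩
  have hn1 : n1 ≤ n := (le_max_left _ _).trans ((le_max_left _ _).trans hn)
  have hn2 : n2 ≤ n := (le_max_right _ _).trans ((le_max_left _ _).trans hn)
  have hn3 : 2 ≤ n := (le_max_right _ _).trans hn
  set L := Real.log n with hL
  have hL2 : 2 ≤ L := (le_max_left _ _).trans (h1 n hn1)
  have hLC : 4 * |C| ≤ L := (le_max_right _ _).trans (h1 n hn1)
  have hLn : 18 * L ^ (A + 1) ≤ n := h2 n hn2
  have hnR : (2 : ℝ) ≤ n := by exact_mod_cast hn3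
  have haR : (a : ℝ) ≤ L ^ A := le_trans (by exact_mod_cast haK) hK
  have ha1 : (1 : ℝ) ≤ a := by exact_mod_cast ha
  have hLA : 0 < L ^ A := by positivity
  have hLA1 : L ^ A ≤ n := by
    have : L ^ A * 1 ≤ L ^ A * (18 * L) := by
      apply mul_le_mul_of_nonneg_left _ hLA.le
      linarith
    calc L ^ A = L ^ A * 1 := (mul_one _).symm
      _ ≤ L ^ A * (18 * L) := this
      _ = 18 * L ^ (A + 1) := by ring
      _ ≤ n := hLn
  set x : ℝ := ((2 * a * n : ℕ) : ℝ) with hx
  have hxe : x = 2 * a * n := by rw [hx]; push_cast; ring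
  have hxn : (n : ℝ) ≤ x := by
    rw [hxe]
    nlinarith
  have hx2 : 2 ≤ x := by linarith
  have hlx : L ≤ Real.log x := Real.log_le_log (by linarith) hxn
  have hlx3 : Real.log x ≤ 3 * L := by
    have h3 : x ≤ 2 * (n * n) := by
      rw [hxe]
      have : (a : ℝ) ≤ n := haR.trans hLA1
      nlinarith
    have h4 : Real.log x ≤ Real.log (2 * (n * n)) := Real.log_le_log (by linarith) h3
    rw [Real.log_mul (by norm_num) (by positivity), Real.log_mul (by positivity) (by positivity)] at h4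
    have h5 : Real.log 2 ≤ 1 := by
      have := Real.log_two_lt_d9
      linarith
    linarith
  have hb : ((2 * a : ℕ) : ℝ) ≤ Real.log x ^ (A + 1) := by
    push_cast
    calc (2 : ℝ) * a ≤ L * L ^ A := by
          apply mul_le_mul hL2 haR (by linarith) (by linarith)
      _ = L ^ (A + 1) := by ring
      _ ≤ Real.log x ^ (A + 1) := pow_le_pow_left₀ (by linarith) hlx _
  have hmain := hC x hx2 (2 * a) 1 (by omega) hb (Nat.coprime_one_left _)
  have hfl : ⌊x⌋₊ = 2 * a * n := by rw [hx]; exact Nat.floor_natCast _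
  rw [hfl] at hmain
  set F := (Ioc 0 (2 * a * n)).filter (fun p => p.Prime ∧ p % (2 * a) = 1 % (2 * a)) with hF
  -- the main term
  have htot : (n : ℝ) ≤ x / ((2 * a).totient : ℕ) := by
    have h3 : 0 < (2 * a).totient := Nat.totient_pos.2 (by omega)
    have h4 : ((2 * a).totient : ℝ) ≤ 2 * a := by exact_mod_cast Nat.totient_le (2 * a)
    rw [le_div_iff₀ (by exact_mod_cast h3), hxe]
    nlinarith
  -- the error term
  have herr : C * x / Real.log x ^ (A + 1) ≤ n / 2 := by
    have h3 : 0 < L ^ (A + 1) := by positivity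
    have h4 : L ^ (A + 1) ≤ Real.log x ^ (A + 1) := pow_le_pow_left₀ (by linarith) hlx _
    have h5 : C * x ≤ |C| * (2 * L ^ A * n) := by
      calc C * x ≤ |C| * x := mul_le_mul_of_nonneg_right (le_abs_self C) (by linarith)
        _ ≤ |C| * (2 * L ^ A * n) := by
          apply mul_le_mul_of_nonneg_left _ (abs_nonneg C)
          rw [hxe]
          nlinarith
    calc C * x / Real.log x ^ (A + 1) ≤ |C| * (2 * L ^ A * n) / Real.log x ^ (A + 1) := by
          gcongr
      _ ≤ |C| * (2 * L ^ A * n) / L ^ (A + 1) := by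
          apply div_le_div_of_nonneg_left (by positivity) h3 h4
      _ ≤ n / 2 := by
          rw [div_le_iff₀ h3]
          have h6 : |C| * (2 * L ^ A * n) = (4 * |C|) * (L ^ A * n / 2) := by ring
          have h7 : (n : ℝ) / 2 * L ^ (A + 1) = L * (L ^ A * n / 2) := by ring
          rw [h6, h7]
          apply mul_le_mul_of_nonneg_right hLC (by positivity)
  have hsum : (n : ℝ) / 2 ≤ ∑ p ∈ F, Real.log p := by
    have := (abs_le.1 hmain).1
    linarith
  have hsum2 : ∑ p ∈ F, Real.log p ≤ F.card * (3 * L) := by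
    rw [← nsmul_eq_mul]
    apply sum_le_card_nsmul
    intro p hp
    obtain ⟨h3, h4, _⟩ := mem_filter.1 hp
    have h5 : (p : ℝ) ≤ x := by
      rw [hx]
      exact_mod_cast (mem_Ioc.1 h3).2
    have h6 : (0 : ℝ) < p := by exact_mod_cast h4.pos
    exact (Real.log_le_log h6 h5).trans hlx3
  have hFc : 3 * K ≤ F.card := by
    have h3 : (n : ℝ) / 2 ≤ F.card * (3 * L) := hsum.trans hsum2
    have h4 : 9 * L ^ (A + 1) ≤ F.card * (3 * L) := by linarith
    have h5 : 3 * L ^ A * (3 * L) ≤ F.card * (3 * L) := by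
      calc 3 * L ^ A * (3 * L) = 9 * L ^ (A + 1) := by ring
        _ ≤ _ := h4
    have h6 : 3 * L ^ A ≤ F.card := le_of_mul_le_mul_right h5 (by linarith)
    have h7 : (3 * K : ℝ) ≤ F.card := by linarith
    exact_mod_cast h7
  -- from primes to partners
  have hinj : F.card ≤ ((Icc 1 n).filter (fun b => (2 * a * b + 1).Prime)).card := by
    have hrep : ∀ p ∈ F, 2 * a * (p / (2 * a)) + 1 = p := by
      intro p hp
      obtain ⟨_, _, h5⟩ := mem_filter.1 hp
      rw [Nat.mod_eq_of_lt (show 1 < 2 * a by omega)] at h5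
      have := Nat.div_add_mod p (2 * a)
      omega
    apply card_le_card_of_injOn (fun p => p / (2 * a))
    · intro p hp
      have hp' := mem_coe.1 hp
      have h3 := hrep p hp'
      obtain ⟨h4, h5, _⟩ := mem_filter.1 hp'
      have h6 := (mem_Ioc.1 h4).2
      refine mem_coe.2 (mem_filter.2 ⟨mem_Icc.2 ⟨?_, ?_⟩, ?_⟩)
      · refine Nat.one_le_iff_ne_zero.2 (fun h7 => ?_)
        have h7' : p / (2 * a) = 0 := h7
        rw [h7', Nat.mul_zero, zero_add] at h3
        exact h5.one_lt.ne h3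
      · have h7 : 2 * a * (p / (2 * a)) ≤ 2 * a * n := by omega
        exact Nat.le_of_mul_le_mul_left h7 (by omega)
      · rw [h3]; exact h5
    · intro p hp q hq he
      have h3 := hrep p (mem_coe.1 hp)
      have h4 := hrep q (mem_coe.1 hq)
      simp only at he
      rw [← h3, ← h4, he]
  have hsplit : ((Icc 1 n).filter (fun b => (2 * a * b + 1).Prime)).card ≤
      K + ((Ioc K n).filter (fun b => (2 * a * b + 1).Prime)).card := by
    have h3 : (Icc 1 n).filter (fun b => (2 * a * b + 1).Prime) ⊆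
        Icc 1 K ∪ (Ioc K n).filter (fun b => (2 * a * b + 1).Prime) := by
      intro b hb
      obtain ⟨h4, h5⟩ := mem_filter.1 hb
      rw [mem_Icc] at h4
      rcases Nat.lt_or_ge K b with h | h
      · exact mem_union_right _ (mem_filter.2 ⟨mem_Ioc.2 ⟨h, h4.2⟩, h5⟩)
      · exact mem_union_left _ (mem_Icc.2 ⟨h4.1, h⟩)
    have h4 := (card_le_card h3).trans (card_union_le _ _)
    rwa [Nat.card_Icc, Nat.add_sub_cancel] at h4
  omega

end Pool.Agent.H47.CR
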