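import Mathlib
import Pool.Agent.H34.CP.Few
import Pool.Agent.H34.CP.Smooth

/-!
For every `u ≤ t` most of the `k < t` have `2uk + 1` squarefree with few prime factors (the proofs of
`Pool.Agent.H34.CP` with a general multiplier `u` in place of `t`).
-/

set_option autoImplicit false

namespace Pool.Agent.H47.CR

open Finset Real Pool.Agent.H34.CP

/-- squarefree, few prime factors, bounded number of prime factors up to a small factor -/
def Good (ε C : ℝ) (r t v : ℕ) : Prop :=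
  Squarefree v ∧ (v.primeFactors.card : ℝ) ≤ C * log (log t) ∧
    ∃ u w : ℕ, v = u * w ∧ (u : ℝ) ≤ (t : ℝ) ^ ε ∧ w.primeFactors.card ≤ r

theorem card_not_squarefree (t u : ℕ) (hu : u ≤ t) (ht : 2 ≤ t) :
    (((Icc 1 (t - 1)).filter (fun k => ¬ Squarefree (2 * k * u + 1))).card : ℝ) ≤
      t / 4 + Nat.primeCounting (2 * t) := by
  classical
  set Pr := (Icc 1 (2 * t)).filter (fun p => p.Prime ∧ p ≠ 2) with hPr
  have h1 : (Icc 1 (t - 1)).filter (fun k => ¬ Squarefree (2 * k * u + 1)) ⊆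
      Pr.biUnion (fun p => (Icc 1 (t - 1)).filter (fun k => p ^ 2 ∣ 2 * k * u + 1)) := by
    intro k hk
    rw [mem_filter, mem_Icc] at hk
    rw [Nat.squarefree_iff_prime_squarefree] at hk
    obtain ⟨hk1, hk2⟩ := hk
    push Not at hk2
    obtain ⟨p, hp, hpd⟩ := hk2
    rw [mem_biUnion]
    refine ⟨p, ?_, ?_⟩
    · rw [hPr, mem_filter, mem_Icc]
      refine ⟨⟨hp.one_le, ?_⟩, hp, ?_⟩
      · by_contra hcon
        have h2 : 2 * k * u + 1 < (2 * t) * (2 * t) := by
          have h21 : k * u ≤ t * t := Nat.mul_le_mul (by omega) hu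
          nlinarith
        have h3 := Nat.le_of_dvd (by omega) hpd
        have h4 : (2 * t) * (2 * t) ≤ p * p := Nat.mul_le_mul (by omega) (by omega)
        omega
      · rintro rfl
        have h5 : 2 ∣ 2 * (k * u) + 1 := by
          rw [← mul_assoc]
          exact (Dvd.intro _ rfl).trans hpd
        omega
    · rw [mem_filter, mem_Icc]
      exact ⟨hk1, by rw [pow_two]; exact hpd⟩
  have h2 : (((Icc 1 (t - 1)).filter (fun k => ¬ Squarefree (2 * k * u + 1))).card : ℝ) ≤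
      ∑ p ∈ Pr, ((t : ℝ) / (p : ℝ) ^ 2 + 1) := by
    have h3 := (card_le_card h1).trans card_biUnion_le
    have h4 : (((Icc 1 (t - 1)).filter (fun k => ¬ Squarefree (2 * k * u + 1))).card : ℝ) ≤
        ((∑ p ∈ Pr, ((Icc 1 (t - 1)).filter (fun k => p ^ 2 ∣ 2 * k * u + 1)).card : ℕ) : ℝ) := by
      exact_mod_cast h3
    refine h4.trans ?_
    push_cast
    apply sum_le_sum
    intro p hp
    have hp0 : 0 < p := (mem_filter.1 hp).2.1.pos
    have h5 := card_dvd_le (p ^ 2) (t - 1) u (by positivity)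
    have h6 : (((Icc 1 (t - 1)).filter (fun k => p ^ 2 ∣ 2 * k * u + 1)).card : ℝ) ≤
        (((t - 1) / p ^ 2 + 1 : ℕ) : ℝ) := by exact_mod_cast h5
    refine h6.trans ?_
    push_cast
    have h7 : (((t - 1) / p ^ 2 : ℕ) : ℝ) ≤ ((t - 1 : ℕ) : ℝ) / ((p ^ 2 : ℕ) : ℝ) :=
      Nat.cast_div_le
    have h8 : ((t - 1 : ℕ) : ℝ) ≤ t := by exact_mod_cast Nat.sub_le _ _
    have h9 : ((t - 1 : ℕ) : ℝ) / ((p ^ 2 : ℕ) : ℝ) ≤ (t : ℝ) / (p : ℝ) ^ 2 := by
      push_cast
      exact div_le_div_of_nonneg_right h8 (by positivity)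
    linarith
  have h3 : ∑ p ∈ Pr, ((t : ℝ) / (p : ℝ) ^ 2 + 1) =
      t * (∑ p ∈ Pr, 1 / (p : ℝ) ^ 2) + (Pr.card : ℝ) := by
    rw [sum_add_distrib, mul_sum, sum_const, nsmul_eq_mul, mul_one]
    congr 1
    apply sum_congr rfl
    intro p _
    ring
  have h4 : ∑ p ∈ Pr, 1 / (p : ℝ) ^ 2 ≤ 1 / 4 := by
    have h5 : ∑ p ∈ Pr, 1 / (p : ℝ) ^ 2 ≤
        ∑ j ∈ Icc 1 t, (1 / ((2 * j + 1 : ℕ) : ℝ) ^ 2) := by
      have h6 : Pr ⊆ (Icc 1 t).image (fun j => 2 * j + 1) := by
        intro p hp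
        rw [hPr, mem_filter, mem_Icc] at hp
        obtain ⟨⟨_, hp2⟩, hp3, hp4⟩ := hp
        have hodd := hp3.eq_two_or_odd
        have hp5 : p ≠ 1 := hp3.one_lt.ne'
        rw [mem_image]
        refine ⟨p / 2, mem_Icc.2 ⟨by omega, by omega⟩, by omega⟩
      refine (sum_le_sum_of_subset_of_nonneg h6 fun p _ _ => by positivity).trans ?_
      rw [sum_image]
      intro a _ b _ hab
      have : 2 * a + 1 = 2 * b + 1 := hab
      omega
    have h7 := sum_odd_sq t
    have h8 : (0 : ℝ) ≤ 1 / (4 * ((t : ℝ) + 1)) := by positivity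
    linarith
  have h5 : (Pr.card : ℝ) ≤ Nat.primeCounting (2 * t) := by
    rw [Nat.primeCounting, Nat.primeCounting', Nat.count_eq_card_filter_range]
    have h6 : Pr ⊆ (range (2 * t + 1)).filter Nat.Prime := by
      intro p hp
      rw [hPr, mem_filter, mem_Icc] at hp
      rw [mem_filter, mem_range]
      exact ⟨by omega, hp.2.1⟩
    exact_mod_cast card_le_card h6
  have ht0 : (0 : ℝ) ≤ t := Nat.cast_nonneg t
  have h6 := mul_le_mul_of_nonneg_left h4 ht0
  rw [h3] at h2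
  linarith

theorem mean_le (t u : ℕ) (hu : u ≤ t) (ht : 3 ≤ t) :
    ∑ k ∈ Icc 1 (t - 1), ((2 * k * u + 1).primeFactors.card : ℝ) ≤
      2 * t * (8 + 4 * log (log t)) := by
  have hstep : ∀ k ∈ Icc 1 (t - 1), ((2 * k * u + 1).primeFactors.card : ℝ) ≤
      (((Icc 1 t).filter (fun p => p.Prime ∧ p ∣ 2 * k * u + 1)).card : ℝ) + 2 := by
    intro k hk
    rw [mem_Icc] at hk
    have h1 : 2 * k * u + 1 < 2 * t ^ 2 := by
      have h2 : k + 1 ≤ t := by omega
      have h3 : 2 * (k + 1) * t ≤ 2 * t * t := by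
        apply Nat.mul_le_mul_right
        omega
      have h3' : 2 * k * u ≤ 2 * k * t := Nat.mul_le_mul_left _ hu
      nlinarith
    have h2 := card_large t (2 * k * u + 1) (by omega) (by omega) h1
    have h3 : (2 * k * u + 1).primeFactors ⊆
        (Icc 1 t).filter (fun p => p.Prime ∧ p ∣ 2 * k * u + 1) ∪
          (2 * k * u + 1).primeFactors.filter (fun p => t < p) := by
      intro p hp
      rw [mem_union, mem_filter, mem_filter, mem_Icc]
      have h4 := Nat.prime_of_mem_primeFactors hp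
      by_cases h5 : t < p
      · exact Or.inr ⟨hp, h5⟩
      · exact Or.inl ⟨⟨h4.one_le, by omega⟩, h4, Nat.dvd_of_mem_primeFactors hp⟩
    have h6 := (card_le_card h3).trans (card_union_le _ _)
    have h7 : (2 * k * u + 1).primeFactors.card ≤
        ((Icc 1 t).filter (fun p => p.Prime ∧ p ∣ 2 * k * u + 1)).card + 2 := by omega
    exact_mod_cast h7
  have htR : (3 : ℝ) ≤ t := by exact_mod_cast ht
  have hsum : ∑ k ∈ Icc 1 (t - 1),
      (((Icc 1 t).filter (fun p => p.Prime ∧ p ∣ 2 * k * u + 1)).card : ℝ) ≤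
      2 * t * ∑ p ∈ (Icc 1 t).filter Nat.Prime, (1 / (p : ℝ)) := by
    have h1 : ∑ k ∈ Icc 1 (t - 1),
        ((Icc 1 t).filter (fun p => p.Prime ∧ p ∣ 2 * k * u + 1)).card =
        ∑ p ∈ (Icc 1 t).filter Nat.Prime,
          ((Icc 1 (t - 1)).filter (fun k => p ∣ 2 * k * u + 1)).card := by
      simp only [card_filter, ← filter_filter]
      rw [sum_comm]
    have h2 : ∑ k ∈ Icc 1 (t - 1),
        (((Icc 1 t).filter (fun p => p.Prime ∧ p ∣ 2 * k * u + 1)).card : ℝ) =
        ((∑ k ∈ Icc 1 (t - 1),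
        ((Icc 1 t).filter (fun p => p.Prime ∧ p ∣ 2 * k * u + 1)).card : ℕ) : ℝ) := by
      push_cast
      rfl
    rw [h2, h1, mul_sum]
    push_cast
    apply sum_le_sum
    intro p hp
    rw [mem_filter, mem_Icc] at hp
    have hp0 : 0 < p := hp.2.pos
    have hpR : (0 : ℝ) < p := by exact_mod_cast hp0
    have h3 := card_dvd_le p (t - 1) u hp0
    have h4 : (((Icc 1 (t - 1)).filter (fun k => p ∣ 2 * k * u + 1)).card : ℝ) ≤
        (((t - 1) / p + 1 : ℕ) : ℝ) := by exact_mod_cast h3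
    have h5 : (((t - 1) / p : ℕ) : ℝ) ≤ t / p := by
      have h6 : (((t - 1) / p : ℕ) : ℝ) ≤ ((t - 1 : ℕ) : ℝ) / p := Nat.cast_div_le
      have h7 : ((t - 1 : ℕ) : ℝ) ≤ t := by exact_mod_cast Nat.sub_le _ _
      exact h6.trans (div_le_div_of_nonneg_right h7 hpR.le)
    have h8 : (1 : ℝ) ≤ t / p := by
      rw [le_div_iff₀ hpR, one_mul]
      exact_mod_cast hp.1.2
    push_cast at h4
    calc _ ≤ (((t - 1) / p : ℕ) : ℝ) + 1 := h4
      _ ≤ t / p + t / p := add_le_add h5 h8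
      _ = 2 * t * (1 / p) := by ring
  have hinv := sum_inv_le t ht
  calc _ ≤ ∑ k ∈ Icc 1 (t - 1),
      ((((Icc 1 t).filter (fun p => p.Prime ∧ p ∣ 2 * k * u + 1)).card : ℝ) + 2) :=
        sum_le_sum hstep
    _ = ∑ k ∈ Icc 1 (t - 1),
      (((Icc 1 t).filter (fun p => p.Prime ∧ p ∣ 2 * k * u + 1)).card : ℝ) +
        ((t - 1 : ℕ) : ℝ) * 2 := by
        rw [sum_add_distrib, sum_const, Nat.card_Icc, nsmul_eq_mul]
        norm_num
    _ ≤ 2 * t * (7 + 4 * log (log t)) + t * 2 := by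
        have h7 : ((t - 1 : ℕ) : ℝ) ≤ t := by exact_mod_cast Nat.sub_le _ _
        have h8 : 2 * (t : ℝ) * ∑ p ∈ (Icc 1 t).filter Nat.Prime, (1 / (p : ℝ)) ≤
            2 * t * (7 + 4 * log (log t)) := mul_le_mul_of_nonneg_left hinv (by positivity)
        linarith
    _ = 2 * t * (8 + 4 * log (log t)) := by ring

/-- Markov's inequality -/
theorem card_many (t u : ℕ) (hu : u ≤ t) (ht : 3 ≤ t) (T : ℝ) :
    (((Icc 1 (t - 1)).filter
      (fun k => T < ((2 * k * u + 1).primeFactors.card : ℝ))).card : ℝ) * T ≤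
      2 * t * (8 + 4 * log (log t)) := by
  set F := (Icc 1 (t - 1)).filter
      (fun k => T < ((2 * k * u + 1).primeFactors.card : ℝ)) with hF
  calc (F.card : ℝ) * T = ∑ k ∈ F, T := by rw [sum_const, nsmul_eq_mul]
    _ ≤ ∑ k ∈ F, ((2 * k * u + 1).primeFactors.card : ℝ) :=
        sum_le_sum fun k hk => (mem_filter.1 hk).2.le
    _ ≤ ∑ k ∈ Icc 1 (t - 1), ((2 * k * u + 1).primeFactors.card : ℝ) :=
        sum_le_sum_of_subset_of_nonneg (filter_subset _ _) fun k _ _ => by positivity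
    _ ≤ _ := mean_le t u hu ht

theorem mean_sm (t u J : ℕ) (ht : 2 ^ (J + 1) ≤ t) :
    ∑ k ∈ Icc 1 (t - 1), sm (2 ^ (J + 1)) (2 * k * u + 1) ≤ 12 * t * (J + 1) := by
  set y := 2 ^ (J + 1) with hy
  have h1 : ∑ k ∈ Icc 1 (t - 1), sm y (2 * k * u + 1) ≤
      ∑ k ∈ Icc 1 (t - 1), ∑ p ∈ (Icc 1 y).filter Nat.Prime,
        (if p ∣ 2 * k * u + 1 then log p else 0) := by
    apply sum_le_sum
    intro k _
    rw [← sum_filter, sm]
    apply sum_le_sum_of_subset_of_nonneg
    · intro p hp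
      rw [mem_filter] at hp
      rw [mem_filter, mem_filter, mem_Icc]
      have h4 := Nat.prime_of_mem_primeFactors hp.1
      exact ⟨⟨⟨h4.one_le, hp.2⟩, h4⟩, Nat.dvd_of_mem_primeFactors hp.1⟩
    · intro p _ _
      exact log_natCast_nonneg p
  have h2 : ∑ k ∈ Icc 1 (t - 1), ∑ p ∈ (Icc 1 y).filter Nat.Prime,
        (if p ∣ 2 * k * u + 1 then log (p : ℝ) else 0) ≤
      2 * t * ∑ p ∈ (Icc 1 y).filter Nat.Prime, (log p / (p : ℝ)) := by
    rw [sum_comm, mul_sum]
    apply sum_le_sum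
    intro p hp
    rw [mem_filter, mem_Icc] at hp
    rw [← sum_filter, sum_const, nsmul_eq_mul]
    have hp0 : 0 < p := hp.2.pos
    have hpR : (0 : ℝ) < p := by exact_mod_cast hp0
    have h3 := card_dvd_le p (t - 1) u hp0
    have h4 : (((Icc 1 (t - 1)).filter (fun k => p ∣ 2 * k * u + 1)).card : ℝ) ≤
        (((t - 1) / p + 1 : ℕ) : ℝ) := by exact_mod_cast h3
    have h5 : (((t - 1) / p : ℕ) : ℝ) ≤ t / p := by
      have h6 : (((t - 1) / p : ℕ) : ℝ) ≤ ((t - 1 : ℕ) : ℝ) / p := Nat.cast_div_le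
      have h7 : ((t - 1 : ℕ) : ℝ) ≤ t := by exact_mod_cast Nat.sub_le _ _
      exact h6.trans (div_le_div_of_nonneg_right h7 hpR.le)
    have h8 : (1 : ℝ) ≤ t / p := by
      rw [le_div_iff₀ hpR, one_mul]
      exact_mod_cast hp.1.2.trans ht
    push_cast at h4
    have h9 : (((Icc 1 (t - 1)).filter (fun k => p ∣ 2 * k * u + 1)).card : ℝ) ≤
        2 * t / p := by
      calc _ ≤ (((t - 1) / p : ℕ) : ℝ) + 1 := h4
        _ ≤ t / p + t / p := add_le_add h5 h8
        _ = 2 * t / p := by ring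
    calc _ ≤ (2 * t / p) * log p := mul_le_mul_of_nonneg_right h9 (log_natCast_nonneg p)
      _ = 2 * t * (log p / p) := by ring
  have h3 := sum_log_pow J
  have h4 : (0 : ℝ) ≤ 2 * t := by positivity
  have h5 := mul_le_mul_of_nonneg_left h3 h4
  calc _ ≤ _ := h1
    _ ≤ _ := h2
    _ ≤ 2 * t * (6 * (J + 1)) := h5
    _ = 12 * t * (J + 1) := by ring

theorem card_sm (t u J : ℕ) (ht : 2 ^ (J + 1) ≤ t) (T : ℝ) :
    (((Icc 1 (t - 1)).filter (fun k => T < sm (2 ^ (J + 1)) (2 * k * u + 1))).card : ℝ) * T ≤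
      12 * t * (J + 1) := by
  set F := (Icc 1 (t - 1)).filter (fun k => T < sm (2 ^ (J + 1)) (2 * k * u + 1)) with hF
  calc (F.card : ℝ) * T = ∑ k ∈ F, T := by rw [sum_const, nsmul_eq_mul]
    _ ≤ ∑ k ∈ F, sm (2 ^ (J + 1)) (2 * k * u + 1) :=
        sum_le_sum fun k hk => (mem_filter.1 hk).2.le
    _ ≤ ∑ k ∈ Icc 1 (t - 1), sm (2 ^ (J + 1)) (2 * k * u + 1) :=
        sum_le_sum_of_subset_of_nonneg (filter_subset _ _) fun k _ _ => sm_nonneg _ _
    _ ≤ _ := mean_sm t u J ht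

open Classical in
theorem eventually_few (ε : ℝ) (hε : 0 < ε) (hε1 : ε ≤ 1) : ∃ N r : ℕ, 16 ≤ N ∧
    ∀ t : ℕ, N ≤ t → ∀ u : ℕ, u ≤ t → ∀ C : ℝ, 240 ≤ C →
    (((Icc 1 (t - 1)).filter (fun k => ¬ Good ε C r t (2 * k * u + 1))).card : ℝ) ≤
      48 / 100 * t := by
  have h1 := Chebyshev.eventually_primeCounting_le (ε := 1) one_pos
  have h2 : ∀ᶠ x : ℝ in Filter.atTop, 20 * (log 4 + 1) ≤ log x :=
    Real.tendsto_log_atTop.eventually (Filter.eventually_ge_atTop _)
  have h2' : ∀ᶠ x : ℝ in Filter.atTop, 1200 / ε + 1 ≤ log x :=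
    Real.tendsto_log_atTop.eventually (Filter.eventually_ge_atTop _)
  obtain ⟨x0, hx0⟩ := Filter.eventually_atTop.1 ((h1.and h2).and h2')
  refine ⟨max 16 ⌈x0⌉₊, ⌈6000 / ε⌉₊, le_max_left _ _, ?_⟩
  intro t ht u hu C hC
  set r := ⌈6000 / ε⌉₊ with hr
  have hrR : 6000 / ε ≤ (r : ℝ) := Nat.le_ceil _
  have ht16 : 16 ≤ t := (le_max_left _ _).trans ht
  have htR : (16 : ℝ) ≤ t := by exact_mod_cast ht16
  have htx0 : x0 ≤ (t : ℝ) := Nat.ceil_le.1 ((le_max_right _ _).trans ht)
  have htx : x0 ≤ 2 * (t : ℝ) := by linarith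
  obtain ⟨⟨h3, h4⟩, -⟩ := hx0 (2 * t) htx
  obtain ⟨-, hLε⟩ := hx0 t htx0
  -- primes
  have hpi : (Nat.primeCounting (2 * t) : ℝ) ≤ t / 10 := by
    have h5 : ⌊2 * (t : ℝ)⌋₊ = 2 * t := by
      have : (2 * (t : ℝ)) = ((2 * t : ℕ) : ℝ) := by push_cast; ring
      rw [this, Nat.floor_natCast]
    rw [h5] at h3
    have hlog4 : 0 < log 4 := log_pos (by norm_num)
    have h6 : 0 < log (2 * t) := by linarith
    refine h3.trans ?_
    rw [div_le_iff₀ h6]
    nlinarith
  -- few prime factors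
  have hlog16 : (2.76 : ℝ) < log 16 := by
    have h5 : log 16 = 4 * log 2 := by
      rw [show (16 : ℝ) = 2 ^ 4 by norm_num, log_pow]
      norm_num
    have := log_two_gt_d9
    rw [h5]
    linarith
  have hL : 1 ≤ log (log t) := by
    rw [le_log_iff_exp_le (by linarith [log_le_log (by norm_num) htR])]
    have h5 := log_le_log (by norm_num) htR
    have h6 := exp_one_lt_d9
    linarith
  have hlogt : 0 < log t := by
    have h5 := log_le_log (by norm_num) htR
    linarith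
  have hmany := card_many t u hu (by omega) (C * log (log t))
  -- the smoothness bound
  set K := ⌊ε * log t / 600⌋₊ with hK
  have hεL : 1200 ≤ ε * log t := by
    have h5 : ε * (1200 / ε + 1) ≤ ε * log t := mul_le_mul_of_nonneg_left hLε hε.le
    have h6 : ε * (1200 / ε + 1) = 1200 + ε := by field_simp
    linarith
  have hKle : (K : ℝ) ≤ ε * log t / 600 := Nat.floor_le (by positivity)
  have hKlt : ε * log t / 600 < K + 1 := Nat.lt_floor_add_one _
  have hKge : ε * log t / 1200 ≤ K := by linarith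
  have hK1 : 1 ≤ K := by
    have : (1 : ℝ) ≤ K := by linarith
    exact_mod_cast this
  obtain ⟨J, hJ⟩ : ∃ J, K = J + 1 := ⟨K - 1, by omega⟩
  have hJR : (K : ℝ) = J + 1 := by rw [hJ]; push_cast; ring
  have hlog2 : log 2 < 0.6931471808 := log_two_lt_d9
  have hlog2' : 0.6931471803 < log 2 := log_two_gt_d9
  have hpow : 2 ^ (J + 1) ≤ t := by
    have h5 : ((2 : ℝ)) ^ (J + 1) ≤ t := by
      rw [← log_le_log_iff (by positivity) (by linarith), log_pow, ← hJ]
      have h6 : (K : ℝ) ≤ log t := by nlinarith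
      nlinarith
    exact_mod_cast h5
  have hsm := card_sm t u J hpow (ε * log t)
  set B1 := (Icc 1 (t - 1)).filter (fun k => ¬ Squarefree (2 * k * u + 1)) with hB1
  set B2 := (Icc 1 (t - 1)).filter
    (fun k => C * log (log t) < ((2 * k * u + 1).primeFactors.card : ℝ)) with hB2
  set B3 := (Icc 1 (t - 1)).filter
    (fun k => ε * log t < sm (2 ^ (J + 1)) (2 * k * u + 1)) with hB3
  set G := (Icc 1 (t - 1)).filter (fun k => ¬ Good ε C r t (2 * k * u + 1)) with hG
  have hb1 : (B1.card : ℝ) ≤ t / 4 + Nat.primeCounting (2 * t) :=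
    card_not_squarefree t u hu (by omega)
  have hb2 : (B2.card : ℝ) ≤ t / 10 := by
    have h5 : (B2.card : ℝ) * (240 * log (log t)) ≤ (B2.card : ℝ) * (C * log (log t)) := by
      apply mul_le_mul_of_nonneg_left _ (Nat.cast_nonneg _)
      exact mul_le_mul_of_nonneg_right hC (by linarith)
    have h6 : (B2.card : ℝ) * (240 * log (log t)) ≤ 24 * t * log (log t) := by
      refine h5.trans (hmany.trans ?_)
      nlinarith
    have h7 : ((B2.card : ℝ) * 10) * (24 * log (log t)) ≤ t * (24 * log (log t)) := by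
      linarith
    have h8 := le_of_mul_le_mul_right h7 (by linarith)
    linarith
  have hb3 : (B3.card : ℝ) ≤ t / 50 := by
    rw [← hJR] at hsm
    have h5 : 12 * (t : ℝ) * K ≤ 12 * t * (ε * log t / 600) :=
      mul_le_mul_of_nonneg_left hKle (by positivity)
    have h6 : (B3.card : ℝ) * (ε * log t) ≤ t / 50 * (ε * log t) := by
      have h7 : 12 * (t : ℝ) * (ε * log t / 600) = t / 50 * (ε * log t) := by ring
      linarith
    exact le_of_mul_le_mul_right h6 (by linarith)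
  have hcov : G ⊆ B1 ∪ (B2 ∪ B3) := by
    intro k hk
    rw [hG, mem_filter] at hk
    obtain ⟨hk, hng⟩ := hk
    rw [mem_union, mem_union, hB1, hB2, hB3, mem_filter, mem_filter, mem_filter]
    by_cases h5 : Squarefree (2 * k * u + 1)
    · by_cases h6 : ((2 * k * u + 1).primeFactors.card : ℝ) ≤ C * log (log t)
      · by_cases h7 : sm (2 ^ (J + 1)) (2 * k * u + 1) ≤ ε * log t
        · exfalso
          apply hng
          refine ⟨h5, h6, ?_⟩
          obtain ⟨y, w, huw, hy, hw⟩ := split _ _ h5 _ h7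
          refine ⟨y, w, huw, ?_, ?_⟩
          · rw [rpow_def_of_pos (by linarith), mul_comm]
            exact hy
          · refine hw.trans ?_
            rw [mem_Icc] at hk
            apply card_rough t J r _ (by omega) (by omega)
            · have h8 : k * u ≤ (t - 1) * t := Nat.mul_le_mul hk.2 hu
              obtain ⟨s, hs⟩ : ∃ s, t = s + 1 := ⟨t - 1, by omega⟩
              rw [hs] at h8 ⊢
              rw [Nat.add_sub_cancel] at h8
              nlinarith
            · rw [← hJR]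
              have h9 : (6000 / ε) * ((ε * log t / 1200) * 0.69) ≤ r * (K * log 2) := by
                apply mul_le_mul hrR _ (by positivity) (by positivity)
                exact mul_le_mul hKge (by linarith) (by norm_num) (by positivity)
              have h10 : (6000 / ε) * ((ε * log t / 1200) * 0.69) = 3.45 * log t := by
                field_simp
                ring
              linarith
        · exact Or.inr (Or.inr ⟨hk, lt_of_not_ge h7⟩)
      · exact Or.inr (Or.inl ⟨hk, lt_of_not_ge h6⟩)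
    · exact Or.inl ⟨hk, h5⟩
  have hcard := (card_le_card hcov).trans
    ((card_union_le _ _).trans (Nat.add_le_add_left (card_union_le _ _) _))
  have hcard' : (G.card : ℝ) ≤ B1.card + (B2.card + B3.card) := by exact_mod_cast hcard
  linarith

end Pool.Agent.H47.CR
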