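import Mathlib
import Pool.Agent.H47.CP.Ins

/-!
Circular orders with prescribed neighbours of a few elements: reversal of a window.
-/

namespace Pool.Agent.H47.CR

open Finset Pool.Agent.H47.CP

variable {R Q : ℕ → ℕ → Prop} {n : ℕ} {f : ℕ → ℕ}

lemma mod_succ_cases (n i : ℕ) (hn : 0 < n) :
    (i % n + 1 < n ∧ (i + 1) % n = i % n + 1) ∨ (i % n + 1 = n ∧ (i + 1) % n = 0) := by
  have hlt := Nat.mod_lt i hn
  rcases Nat.lt_or_ge (i % n + 1) n with h | h
  · left
    refine ⟨h, ?_⟩
    rw [← Nat.mod_add_mod, Nat.mod_eq_of_lt h]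
  · right
    have h1 : i % n + 1 = n := by omega
    refine ⟨h1, ?_⟩
    rw [← Nat.mod_add_mod, h1, Nat.mod_self]

lemma rotate (h : Cyc R n f) (hn : 0 < n) (c : ℕ) : Cyc R n (fun j => f (j + c)) where
  per := by
    intro i
    show f (i + n + c) = f (i + c)
    rw [show i + n + c = (i + c) + n by ring]
    exact h.per _
  pos := fun i => h.pos _
  le := fun i => h.le _
  inj := by
    intro i j hi hj he
    exact h.inj_window hn c i j hi hj (by
      rw [add_comm c i, add_comm c j]; exact he)
  rel := by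
    intro i
    have := h.rel (i + c)
    rwa [show i + c + 1 = i + 1 + c by ring] at this

/-- the places with a bad neighbour -/
def bad (Q : ℕ → ℕ → Prop) [DecidableRel Q] (n : ℕ) (f : ℕ → ℕ) : Finset ℕ :=
  (range n).filter (fun j => ¬ Q (f j) (f (j + 1)))

lemma bad_rotate [DecidableRel Q] (h : Cyc R n f) (hn : 0 < n) (c : ℕ) :
    (bad Q n (fun j => f (j + c))).card ≤ (bad Q n f).card := by
  apply card_le_card_of_injOn (fun j => (j + c) % n)
  · intro j hj
    obtain ⟨h1, h2⟩ := mem_filter.1 (mem_coe.1 hj)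
    refine mem_coe.2 (mem_filter.2 ⟨mem_range.2 (Nat.mod_lt _ hn), ?_⟩)
    intro hq
    apply h2
    have e1 : f ((j + c) % n) = f (j + c) := h.per_mod _
    have e2 : f ((j + c) % n + 1) = f (j + 1 + c) := by
      rw [← h.per_mod ((j + c) % n + 1), Nat.mod_add_mod, h.per_mod]
      congr 1; ring
    show Q (f (j + c)) (f (j + 1 + c))
    rwa [e1, e2] at hq
  · intro i hi j hj he
    have hi' : i < n := mem_range.1 (mem_filter.1 (mem_coe.1 hi)).1
    have hj' : j < n := mem_range.1 (mem_filter.1 (mem_coe.1 hj)).1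
    have h1 : i + c ≡ j + c [MOD n] := he
    have h2 : i ≡ j [MOD n] := Nat.ModEq.add_right_cancel' c h1
    have h3 : i % n = j % n := h2
    rwa [Nat.mod_eq_of_lt hi', Nat.mod_eq_of_lt hj'] at h3

/-- reversal of the window `0, …, i` -/
def rev (n i : ℕ) (f : ℕ → ℕ) : ℕ → ℕ := fun j => if j % n ≤ i then f (i - j % n) else f (j % n)

lemma rev_cyc (h : Cyc R n f) (hn : 0 < n) {i : ℕ} (hi : i + 1 < n)
    (hsym : ∀ x y, R x y → R y x)
    (h1 : R (f 0) (f (i + 1))) (h2 : R (f (n - 1)) (f i)) : Cyc R n (rev n i f) where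
  per := by intro j; simp [rev]
  pos := by intro j; unfold rev; split_ifs <;> exact h.pos _
  le := by intro j; unfold rev; split_ifs <;> exact h.le _
  inj := by
    intro a b ha hb
    unfold rev
    rw [Nat.mod_eq_of_lt ha, Nat.mod_eq_of_lt hb]
    intro he
    split_ifs at he with h3 h4 h4
    · have := h.inj _ _ (by omega) (by omega) he; omega
    · have := h.inj _ _ (by omega) (by omega) he; omega
    · have := h.inj _ _ (by omega) (by omega) he; omega
    · exact h.inj _ _ (by omega) (by omega) he
  rel := by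
    intro j
    unfold rev
    rcases mod_succ_cases n j hn with ⟨h3, h4⟩ | ⟨h3, h4⟩
    · rw [h4]
      by_cases h5 : j % n + 1 ≤ i
      · rw [if_pos (by omega), if_pos h5]
        apply hsym
        have := h.rel (i - (j % n + 1))
        rwa [show i - (j % n + 1) + 1 = i - j % n by omega] at this
      · rw [if_neg h5]
        by_cases h6 : j % n ≤ i
        · have h7 : j % n = i := by omega
          rw [if_pos h6, h7, Nat.sub_self]
          exact h1
        · rw [if_neg h6]
          exact h.rel _
    · rw [h4, if_neg (by omega), if_pos (by omega), Nat.sub_zero]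
      rw [show j % n = n - 1 by omega]
      exact h2

lemma bad_rev [DecidableRel Q] (h : Cyc R n f) (hn : 0 < n) {i : ℕ} (hi : i + 1 < n)
    (hsym : ∀ x y, Q x y → Q y x)
    (h1 : Q (f 0) (f (i + 1))) (h2 : Q (f (n - 1)) (f i)) (h3 : ¬ Q (f (n - 1)) (f 0)) :
    (bad Q n (rev n i f)).card < (bad Q n f).card := by
  have hmem : n - 1 ∈ bad Q n f := by
    refine mem_filter.2 ⟨mem_range.2 (by omega), ?_⟩
    rw [show n - 1 + 1 = 0 + n by omega, h.per]
    exact h3
  have hlt : ((bad Q n f).erase (n - 1)).card < (bad Q n f).card := card_erase_lt_of_mem hmem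
  refine lt_of_le_of_lt ?_ hlt
  apply card_le_card_of_injOn (fun j => if j < i then i - 1 - j else j)
  · intro j hj
    obtain ⟨h4, h5⟩ := mem_filter.1 (mem_coe.1 hj)
    have hjn : j < n := mem_range.1 h4
    unfold rev at h5
    rw [Nat.mod_eq_of_lt hjn] at h5
    rcases mod_succ_cases n j hn with ⟨h6, h7⟩ | ⟨h6, h7⟩
    · rw [Nat.mod_eq_of_lt hjn] at h6 h7
      rw [h7] at h5
      by_cases h8 : j < i
      · rw [if_pos (by omega), if_pos (by omega)] at h5
        simp only [h8, if_true]
        refine mem_coe.2 (mem_erase.2 ⟨by omega, mem_filter.2 ⟨mem_range.2 (by omega), ?_⟩⟩)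
        intro hq
        apply h5
        apply hsym
        rw [show i - 1 - j + 1 = i - j by omega] at hq
        rwa [show i - (j + 1) = i - 1 - j by omega]
      · simp only [h8, if_false]
        by_cases h9 : j = i
        · exfalso
          apply h5
          rw [if_pos (by omega), if_neg (by omega), h9, Nat.sub_self]
          exact h1
        · rw [if_neg (by omega), if_neg (by omega)] at h5
          exact mem_coe.2 (mem_erase.2 ⟨by omega, mem_filter.2 ⟨mem_range.2 hjn, h5⟩⟩)
    · exfalso
      rw [Nat.mod_eq_of_lt hjn] at h6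
      apply h5
      rw [h7, if_neg (by omega), if_pos (by omega), Nat.sub_zero, show j = n - 1 by omega]
      exact h2
  · intro a ha b hb he
    have ha' := mem_filter.1 (mem_coe.1 ha)
    have hb' := mem_filter.1 (mem_coe.1 hb)
    have han : a < n := mem_range.1 ha'.1
    have hbn : b < n := mem_range.1 hb'.1
    simp only at he
    have hai : a ≠ i := by
      rintro rfl
      apply ha'.2
      unfold rev
      rw [Nat.mod_eq_of_lt han, Nat.mod_eq_of_lt hi, if_pos le_rfl, if_neg (by omega), Nat.sub_self]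
      exact h1
    have hbi : b ≠ i := by
      rintro rfl
      apply hb'.2
      unfold rev
      rw [Nat.mod_eq_of_lt hbn, Nat.mod_eq_of_lt hi, if_pos le_rfl, if_neg (by omega), Nat.sub_self]
      exact h1
    split_ifs at he with h4 h5 h5 <;> omega

/-- **Circular orders with a few prescribed neighbours.** `S` is a small set; `R` is the invariant:
it holds between elements outside `S`, and where it holds at an element of `S` the good relation `Q`
holds too. If no element has too many bad partners, all bad pairs can be removed. -/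
theorem fix [DecidableRel Q] (S : Finset ℕ) (hRs : ∀ x y, R x y → R y x) (hQs : ∀ x y, Q x y → Q y x)
    (hR1 : ∀ x y, x ∉ S → y ∉ S → R x y) (hR2 : ∀ x y, R x y → (x ∈ S ∨ y ∈ S) → Q x y)
    (d : ℕ) (hd : ∀ u, 1 ≤ u → u ≤ n → ((Icc 1 n).filter (fun x => ¬ Q u x)).card ≤ d)
    (hn : 2 * d + 2 * S.card + 1 < n) (h : Cyc R n f) : ∃ g, Cyc (fun x y => R x y ∧ Q x y) n g := by
  have hn0 : 0 < n := by omega
  induction hc : (bad Q n f).card using Nat.strong_induction_on generalizing f with
  | _ c ih =>
    by_cases hb : bad Q n f = ∅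
    · refine ⟨f, h.per, h.pos, h.le, h.inj, fun i => ⟨h.rel i, ?_⟩⟩
      by_contra hq
      have : i % n ∈ bad Q n f := by
        refine mem_filter.2 ⟨mem_range.2 (Nat.mod_lt _ hn0), ?_⟩
        rw [h.per_mod, ← h.per_mod (i % n + 1), Nat.mod_add_mod, h.per_mod]
        exact hq
      rw [hb] at this
      exact absurd this (notMem_empty _)
    · obtain ⟨j0, hj0⟩ := Finset.nonempty_iff_ne_empty.2 hb
      obtain ⟨hj0n, hj0q⟩ := mem_filter.1 hj0
      -- rotate: the bad pair is the closing pair
      set f1 : ℕ → ℕ := fun j => f (j + (j0 + 1)) with hf1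
      have h1 : Cyc R n f1 := rotate h hn0 (j0 + 1)
      have hc1 : (bad Q n f1).card ≤ c := by
        rw [← hc]; exact bad_rotate h hn0 (j0 + 1)
      have hu : f1 (n - 1) = f j0 := by
        show f (n - 1 + (j0 + 1)) = f j0
        rw [show n - 1 + (j0 + 1) = j0 + n by omega, h.per]
      have hv : f1 0 = f (j0 + 1) := by
        show f (0 + (j0 + 1)) = _
        rw [zero_add]
      have hbadc : ¬ Q (f1 (n - 1)) (f1 0) := by rw [hu, hv]; exact hj0q
      have hrelc : R (f1 (n - 1)) (f1 0) := by rw [hu, hv]; exact h.rel j0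
      have huS : f1 (n - 1) ∉ S := fun hm => hbadc (hR2 _ _ hrelc (Or.inl hm))
      have hvS : f1 0 ∉ S := fun hm => hbadc (hR2 _ _ hrelc (Or.inr hm))
      -- a good place
      obtain ⟨i, hi, hg1, hg2, hg3, hg4⟩ : ∃ i, i + 1 < n ∧ f1 i ∉ S ∧ f1 (i + 1) ∉ S ∧
          Q (f1 (n - 1)) (f1 i) ∧ Q (f1 0) (f1 (i + 1)) := by
        by_contra hno
        push Not at hno
        set A1 := (range (n - 1)).filter (fun i => f1 i ∈ S)
        set A2 := (range (n - 1)).filter (fun i => f1 (i + 1) ∈ S)
        set A3 := (range (n - 1)).filter (fun i => ¬ Q (f1 (n - 1)) (f1 i))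
        set A4 := (range (n - 1)).filter (fun i => ¬ Q (f1 0) (f1 (i + 1)))
        have hcov : range (n - 1) ⊆ (A1 ∪ A2) ∪ (A3 ∪ A4) := by
          intro i hi
          have hi' : i < n - 1 := mem_range.1 hi
          by_cases e1 : f1 i ∈ S
          · exact mem_union_left _ (mem_union_left _ (mem_filter.2 ⟨hi, e1⟩))
          by_cases e2 : f1 (i + 1) ∈ S
          · exact mem_union_left _ (mem_union_right _ (mem_filter.2 ⟨hi, e2⟩))
          by_cases e3 : Q (f1 (n - 1)) (f1 i)
          · exact mem_union_right _ (mem_union_right _ (mem_filter.2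
              ⟨hi, hno i (by omega) e1 e2 e3⟩))
          · exact mem_union_right _ (mem_union_left _ (mem_filter.2 ⟨hi, e3⟩))
        have hinj0 : ∀ i j, i < n - 1 → j < n - 1 → f1 i = f1 j → i = j := fun i j hi hj he =>
          h1.inj i j (by omega) (by omega) he
        have hinj1 : ∀ i j, i < n - 1 → j < n - 1 → f1 (i + 1) = f1 (j + 1) → i = j :=
          fun i j hi hj he => by
            have := h1.inj (i + 1) (j + 1) (by omega) (by omega) he
            omega
        have c1 : A1.card ≤ S.card := card_le_card_of_injOn (fun i => f1 i)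
          (fun i hi => mem_coe.2 (mem_filter.1 (mem_coe.1 hi)).2)
          (fun i hi j hj he => hinj0 i j (mem_range.1 (mem_filter.1 (mem_coe.1 hi)).1)
            (mem_range.1 (mem_filter.1 (mem_coe.1 hj)).1) he)
        have c2 : A2.card ≤ S.card := card_le_card_of_injOn (fun i => f1 (i + 1))
          (fun i hi => mem_coe.2 (mem_filter.1 (mem_coe.1 hi)).2)
          (fun i hi j hj he => hinj1 i j (mem_range.1 (mem_filter.1 (mem_coe.1 hi)).1)
            (mem_range.1 (mem_filter.1 (mem_coe.1 hj)).1) he)
        have c3 : A3.card ≤ d := (card_le_card_of_injOn (fun i => f1 i)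
          (fun i hi => mem_coe.2 (mem_filter.2 ⟨mem_Icc.2 ⟨h1.pos i, h1.le i⟩,
            (mem_filter.1 (mem_coe.1 hi)).2⟩))
          (fun i hi j hj he => hinj0 i j (mem_range.1 (mem_filter.1 (mem_coe.1 hi)).1)
            (mem_range.1 (mem_filter.1 (mem_coe.1 hj)).1) he)).trans
          (hd (f1 (n - 1)) (h1.pos _) (h1.le _))
        have c4 : A4.card ≤ d := (card_le_card_of_injOn (fun i => f1 (i + 1))
          (fun i hi => mem_coe.2 (mem_filter.2 ⟨mem_Icc.2 ⟨h1.pos _, h1.le _⟩,
            (mem_filter.1 (mem_coe.1 hi)).2⟩))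
          (fun i hi j hj he => hinj1 i j (mem_range.1 (mem_filter.1 (mem_coe.1 hi)).1)
            (mem_range.1 (mem_filter.1 (mem_coe.1 hj)).1) he)).trans
          (hd (f1 0) (h1.pos _) (h1.le _))
        have c5 := card_le_card hcov
        have c6 := card_union_le (A1 ∪ A2) (A3 ∪ A4)
        have c7 := card_union_le A1 A2
        have c8 := card_union_le A3 A4
        rw [card_range] at c5
        omega
      have h2 : Cyc R n (rev n i f1) := rev_cyc h1 hn0 hi hRs (hR1 _ _ hvS hg2) (hR1 _ _ huS hg1)
      have hlt := bad_rev (Q := Q) h1 hn0 hi hQs hg4 hg3 hbadc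
      exact ih _ (lt_of_lt_of_le hlt hc1) h2 rfl

end Pool.Agent.H47.CR
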