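import Mathlib
import Pool.Agent.H47.CR.TwoOpt
import Pool.Agent.H47.CR.Init
import Pool.Agent.H47.CR.Gen
import Pool.Agent.H47.CR.SW

/-!
Circular permutations with prime numbers at all small entries and squarefree numbers with few prime
factors elsewhere.
-/

set_option autoImplicit false

namespace Pool.Agent.H47.CR

open Finset Real Pool.Agent.H47.CP

lemma Good.mono {ε δ C : ℝ} {r s t v : ℕ} (h : Good ε C r t v) (ht : 1 ≤ t) (hεδ : ε ≤ δ)
    (hrs : r ≤ s) : Good δ C s t v := by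
  obtain ⟨h1, h2, u, w, h3, h4, h5⟩ := h
  refine ⟨h1, h2, u, w, h3, h4.trans ?_, h5.trans hrs⟩
  exact rpow_le_rpow_of_exponent_le (by exact_mod_cast ht) hεδ

lemma Good.of_prime {ε C : ℝ} {r t v : ℕ} (hv : v.Prime) (hε : 0 < ε) (hC : 1 ≤ C) (hr : 1 ≤ r)
    (ht : 16 ≤ t) : Good ε C r t v := by
  have htR : (16 : ℝ) ≤ t := by exact_mod_cast ht
  have hlog16 : (2.76 : ℝ) < log 16 := by
    have h5 : log 16 = 4 * log 2 := by
      rw [show (16 : ℝ) = 2 ^ 4 by norm_num, log_pow]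
      norm_num
    have := log_two_gt_d9
    rw [h5]
    linarith
  have hL : 1 ≤ log (log t) := by
    rw [le_log_iff_exp_le (by linarith [log_le_log (by norm_num) htR])]
    have h5 := log_le_log (by norm_num) htR
    have h6 := exp_one_lt_d9
    linarith
  have hc : v.primeFactors.card = 1 := by rw [hv.primeFactors, card_singleton]
  refine ⟨hv.squarefree, ?_, 1, v, (one_mul v).symm, ?_, by rw [hc]; exact hr⟩
  · rw [hc]
    push_cast
    nlinarith
  · push_cast
    exact one_le_rpow (by linarith) hε.le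

theorem main (ε : ℝ) (hε : 0 < ε) : ∃ r : ℕ, ∀ A : ℕ, ∃ n₀ : ℕ, ∀ n : ℕ, n₀ ≤ n →
    ∃ σ : Equiv.Perm (Fin n), ∀ i : Fin n, ∀ a b : ℕ,
      a = (σ i).val + 1 → b = (σ (finRotate n i)).val + 1 →
      Good ε 240 r n (2 * a * b + 1) ∧
      ((a : ℝ) ≤ Real.log n ^ A ∨ (b : ℝ) ≤ Real.log n ^ A → (2 * a * b + 1).Prime) := by
  classical
  obtain ⟨N, r, hN16, hN⟩ := eventually_few (min ε 1) (lt_min hε one_pos) (min_le_right _ _)
  refine ⟨r + 1, fun A => ?_⟩
  obtain ⟨n1, h1⟩ := partners A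
  obtain ⟨n2, h2⟩ := ev_pow 100 (by norm_num) A
  refine ⟨max (max N n1) (max n2 1000), fun n hn => ?_⟩
  have hnN : N ≤ n := (le_max_left _ _).trans ((le_max_left _ _).trans hn)
  have hn1 : n1 ≤ n := (le_max_right _ _).trans ((le_max_left _ _).trans hn)
  have hn2 : n2 ≤ n := (le_max_left _ _).trans ((le_max_right _ _).trans hn)
  have hn3 : 1000 ≤ n := (le_max_right _ _).trans ((le_max_right _ _).trans hn)
  have hL0 : 0 ≤ Real.log n := Real.log_nonneg (by exact_mod_cast (by omega : 1 ≤ n))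
  set K := ⌊Real.log n ^ A⌋₊ with hK
  have hKle : (K : ℝ) ≤ Real.log n ^ A := Nat.floor_le (by positivity)
  have hK100 : 100 * K ≤ n := by
    have h3 : (100 : ℝ) * K ≤ n := le_trans (by linarith) (h2 n hn2)
    exact_mod_cast h3
  -- prime partners
  obtain ⟨g, hg1, hg2⟩ := exists_sdr K
    (fun j => (Ioc K n).filter (fun b => (2 * (j + 1) * b + 1).Prime))
    (fun j hj => h1 n hn1 K hKle (j + 1) (by omega) (by omega))
  set S := Icc 1 K with hS
  have hScard : S.card = K := by rw [hS, Nat.card_Icc]; omega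
  have hQs : ∀ x y : ℕ, Good ε 240 (r + 1) n (2 * x * y + 1) →
      Good ε 240 (r + 1) n (2 * y * x + 1) := by
    intro x y h
    rwa [show 2 * y * x = 2 * x * y by ring]
  have hRs : ∀ x y : ℕ, ((x ∈ S ∨ y ∈ S) → (2 * x * y + 1).Prime) →
      ((y ∈ S ∨ x ∈ S) → (2 * y * x + 1).Prime) := by
    intro x y h h'
    rw [show 2 * y * x = 2 * x * y by ring]
    exact h h'.symm
  obtain ⟨f, hf⟩ := exists_init (R := fun x y : ℕ => (x ∈ S ∨ y ∈ S) → (2 * x * y + 1).Prime)
    n K g (by omega)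
    (fun i hi => mem_Ioc.1 (mem_filter.1 (hg1 i hi)).1) hg2
    (by
      intro x y hx hy h
      rcases h with h | h
      · have := (mem_Icc.1 h).2; omega
      · have := (mem_Icc.1 h).2; omega)
    (by
      intro j hj
      refine ⟨fun _ => ?_, fun _ => ?_⟩
      · have h3 := (mem_filter.1 (hg1 (2 * j) (by omega))).2
        rw [show 2 * j / 2 = j by omega] at h3
        rwa [show 2 * g (2 * j) * (j + 1) = 2 * (j + 1) * g (2 * j) by ring]
      · have h3 := (mem_filter.1 (hg1 (2 * j + 1) (by omega))).2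
        rwa [show (2 * j + 1) / 2 = j by omega] at h3)
  have hdeg : ∀ u, 1 ≤ u → u ≤ n →
      ((Icc 1 n).filter (fun x => ¬ Good ε 240 (r + 1) n (2 * u * x + 1))).card ≤
        (48 * n + 100) / 100 := by
    intro u _ hu
    have h3 := hN n hnN u hu 240 le_rfl
    have h4 : (Icc 1 n).filter (fun x => ¬ Good ε 240 (r + 1) n (2 * u * x + 1)) ⊆
        insert n ((Icc 1 (n - 1)).filter (fun k => ¬ Good (min ε 1) 240 r n (2 * k * u + 1))) := by
      intro x hx
      obtain ⟨h5, h6⟩ := mem_filter.1 hx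
      rw [mem_Icc] at h5
      rw [mem_insert]
      rcases Nat.lt_or_ge x n with h | h
      · right
        refine mem_filter.2 ⟨mem_Icc.2 ⟨h5.1, by omega⟩, fun h7 => h6 ?_⟩
        rw [show 2 * u * x = 2 * x * u by ring]
        exact h7.mono (by omega) (min_le_left _ _) (Nat.le_succ r)
      · left; omega
    have h5 := (card_le_card h4).trans (card_insert_le _ _)
    have h6 : ((((Icc 1 n).filter (fun x => ¬ Good ε 240 (r + 1) n (2 * u * x + 1))).card : ℕ) : ℝ) ≤
        48 / 100 * n + 1 := by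
      have h7 : ((((Icc 1 n).filter (fun x => ¬ Good ε 240 (r + 1) n (2 * u * x + 1))).card : ℕ) : ℝ) ≤
          ((((Icc 1 (n - 1)).filter (fun k => ¬ Good (min ε 1) 240 r n (2 * k * u + 1))).card + 1 : ℕ) : ℝ) := by
        exact_mod_cast h5
      push_cast at h7
      linarith
    have h8 : 100 * ((((Icc 1 n).filter (fun x => ¬ Good ε 240 (r + 1) n (2 * u * x + 1))).card : ℕ) : ℝ) ≤
        48 * n + 100 := by linarith
    have h9 : 100 * ((Icc 1 n).filter (fun x => ¬ Good ε 240 (r + 1) n (2 * u * x + 1))).card ≤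
        48 * n + 100 := by exact_mod_cast h8
    omega
  obtain ⟨g', hg'⟩ := fix (R := fun x y : ℕ => (x ∈ S ∨ y ∈ S) → (2 * x * y + 1).Prime)
    (Q := fun x y : ℕ => Good ε 240 (r + 1) n (2 * x * y + 1)) S hRs hQs
    (fun x y hx hy h => absurd h (by rintro (h | h) <;> contradiction))
    (fun x y hR hxy => Good.of_prime (hR hxy) hε (by norm_num) (by omega) (by omega))
    ((48 * n + 100) / 100) hdeg (by rw [hScard]; omega) hf
  obtain ⟨σ, hσ⟩ := hg'.perm
  refine ⟨σ, fun i a b ha hb => ?_⟩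
  obtain ⟨h3, h4⟩ := hσ i
  rw [h3] at ha
  rw [h4] at hb
  have h5 := hg'.rel i.1
  rw [← ha, ← hb] at h5
  refine ⟨h5.2, fun h6 => h5.1 ?_⟩
  have ha1 : 1 ≤ a := by rw [ha]; exact hg'.pos _
  have hb1 : 1 ≤ b := by rw [hb]; exact hg'.pos _
  rcases h6 with h6 | h6
  · exact Or.inl (mem_Icc.2 ⟨ha1, Nat.le_floor h6⟩)
  · exact Or.inr (mem_Icc.2 ⟨hb1, Nat.le_floor h6⟩)

end Pool.Agent.H47.CR
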